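import Mathlib

/-!
# Definitions for MP_39588e_an

Frechet algebra topologies and Frechet algebras of power series in `ℂ[[X_0, X_1, X_2, ...]]`.
-/

namespace Pool.Agent.Lib.MP_39588e_an

/-- The algebra `ℂ[[X_0, X_1, X_2, ...]]` of formal power series in countably many commuting
indeterminates: all families of complex coefficients indexed by the finitely supported
exponent sequences `r : ℕ →₀ ℕ`, with the Cauchy product. -/
abbrev Finf : Type := MvPowerSeries ℕ ℂ

/-- The topology `τ` on the commutative unital complex algebra `A` is the Frechet algebra topology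
given by the sequence of seminorms `p`: the sequence is increasing, each `p m` is submultiplicative,
the open sets of `τ` are exactly the sets that contain a `p m`-ball around each of their points,
`τ` is Hausdorff, and every Cauchy sequence converges. -/
structure IsFrechetSystem {A : Type} [CommRing A] [Algebra ℂ A]
    (p : ℕ → Seminorm ℂ A) (τ : TopologicalSpace A) : Prop where
  increasing : Monotone p
  submultiplicative : ∀ (m : ℕ) (f g : A), p m (f * g) ≤ p m f * p m g
  isOpen_iff : ∀ s : Set A,
    τ.IsOpen s ↔ ∀ f ∈ s, ∃ m : ℕ, ∃ ε : ℝ, 0 < ε ∧ ∀ g : A, p m (g - f) < ε → g ∈ s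
  hausdorff : ∀ f : A, (∀ m : ℕ, p m f = 0) → f = 0
  complete : ∀ u : ℕ → A,
    (∀ m : ℕ, ∀ ε : ℝ, 0 < ε → ∃ N : ℕ, ∀ i ≥ N, ∀ j ≥ N, p m (u i - u j) < ε) →
    ∃ f : A, ∀ m : ℕ, ∀ ε : ℝ, 0 < ε → ∃ N : ℕ, ∀ i ≥ N, p m (u i - f) < ε

/-- `τ` is a Frechet algebra topology on the commutative unital complex algebra `A`: it is the
complete metrizable topology given by some increasing sequence of submultiplicative seminorms. -/
def IsFrechetAlgebraTopology (A : Type) [CommRing A] [Algebra ℂ A]
    (τ : TopologicalSpace A) : Prop :=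
  ∃ p : ℕ → Seminorm ℂ A, IsFrechetSystem p τ

/-- The unital subalgebra `A` of `ℂ[[X_0, X_1, ...]]`, with the topology `τ`, is a Frechet algebra
of power series (FrAPS): `τ` is a Frechet algebra topology on `A`, `A` contains every
indeterminate, and every coordinate functional is continuous on `A`. -/
structure IsFrAPS (A : Subalgebra ℂ Finf) (τ : TopologicalSpace A) : Prop where
  frechet : IsFrechetAlgebraTopology A τ
  X_mem : ∀ i : ℕ, (MvPowerSeries.X i : Finf) ∈ A
  continuous_coeff : ∀ r : ℕ →₀ ℕ,
    @Continuous A ℂ τ inferInstance (fun f : A => MvPowerSeries.coeff r (f : Finf))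

end Pool.Agent.Lib.MP_39588e_an
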