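import Mathlib
import Pool.Agent.Lib.MP_39588e_an.Defs

open MvPowerSeries Finset

namespace Pool.Agent.Lib.MP_39588e_an

/-- apply a linear functional on sequences coefficientwise to a sequence of power series -/
noncomputable def Lc (L : (ℕ → ℂ) →ₗ[ℂ] ℂ) (h : ℕ → Finf) : Finf :=
  fun s => L (fun i => coeff s (h i))

theorem coeff_Lc (L : (ℕ → ℂ) →ₗ[ℂ] ℂ) (h : ℕ → Finf) (s : ℕ →₀ ℕ) :
    coeff s (Lc L h) = L (fun i => coeff s (h i)) := rfl

theorem Lc_add (L : (ℕ → ℂ) →ₗ[ℂ] ℂ) (h k : ℕ → Finf) :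
    Lc L (fun i => h i + k i) = Lc L h + Lc L k := by
  ext s
  rw [map_add, coeff_Lc, coeff_Lc, coeff_Lc, ← map_add]
  rfl

theorem Lc_mul (L : (ℕ → ℂ) →ₗ[ℂ] ℂ) (f : Finf) (h : ℕ → Finf) :
    Lc L (fun i => f * h i) = f * Lc L h := by
  classical
  ext s
  rw [coeff_Lc, coeff_mul]
  simp only [coeff_mul, coeff_Lc]
  have : (fun i => ∑ p ∈ antidiagonal s, coeff p.1 f * coeff p.2 (h i)) =
      ∑ p ∈ antidiagonal s, coeff p.1 f • (fun i => coeff p.2 (h i)) := by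
    ext i
    simp [Finset.sum_apply]
  rw [this, map_sum]
  simp

/-- the derivation `f ↦ L((∂_i f)_i)` -/
noncomputable def DL (L : (ℕ → ℂ) →ₗ[ℂ] ℂ) : Finf →ₗ[ℂ] Finf where
  toFun f := Lc L (fun i => pderiv ℂ i f)
  map_add' f g := by
    simp only [map_add]
    exact Lc_add _ _ _
  map_smul' c f := by
    ext s
    have h1 : (fun i => pderiv ℂ i (c • f)) = fun i => c • pderiv ℂ i f := by
      ext1 i
      exact Derivation.map_smul _ _ _
    rw [h1, RingHom.id_apply, map_smul, coeff_Lc, coeff_Lc, ← map_smul]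
    rfl

theorem DL_apply (L : (ℕ → ℂ) →ₗ[ℂ] ℂ) (f : Finf) : DL L f = Lc L (fun i => pderiv ℂ i f) := rfl

theorem DL_mul (L : (ℕ → ℂ) →ₗ[ℂ] ℂ) (f g : Finf) :
    DL L (f * g) = f * DL L g + DL L f * g := by
  simp only [DL_apply]
  have : (fun i => pderiv ℂ i (f * g)) =
      fun i => f * pderiv ℂ i g + g * pderiv ℂ i f := by
    ext1 i
    rw [Derivation.leibniz]
    simp
  rw [this, Lc_add, Lc_mul, Lc_mul, mul_comm g]

theorem coeff_DL (L : (ℕ → ℂ) →ₗ[ℂ] ℂ) (f : Finf) (s : ℕ →₀ ℕ) :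
    coeff s (DL L f) = L (fun i => coeff (s + Finsupp.single i 1) f * (s i + 1)) := by
  rw [DL_apply, coeff_Lc]
  simp only [coeff_pderiv]

end Pool.Agent.Lib.MP_39588e_an
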