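import Mathlib
import Pool.Agent.Lib.MP_39588e_an.Deriv

open MvPowerSeries Finset

namespace Pool.Agent.Lib.MP_39588e_an

section

variable (L : (ℕ → ℂ) →ₗ[ℂ] ℂ)

/-- the linear map `c X_0^2 D` -/
noncomputable def del (c : ℂ) : Module.End ℂ Finf :=
  (LinearMap.mulLeft ℂ ((C c * X 0 ^ 2 : Finf))) ∘ₗ DL L

theorem del_apply (c : ℂ) (f : Finf) : del L c f = (C c * X 0 ^ 2) * DL L f := rfl

theorem del_mul (c : ℂ) (f g : Finf) :
    del L c (f * g) = f * del L c g + del L c f * g := by
  simp only [del_apply, DL_mul]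
  ring

theorem DL_one : DL L 1 = 0 := by
  have h := DL_mul L 1 1
  simpa using h

theorem DL_C (a : ℂ) : DL L (C a) = 0 := by
  have : (C a : Finf) = a • 1 := by
    rw [MvPowerSeries.smul_eq_C_mul, mul_one]
  rw [this, map_smul, DL_one, smul_zero]

variable (hL0 : DL L (X 0) = 0)

include hL0

theorem del_X_pow (c : ℂ) (n : ℕ) : del L c (X 0 ^ n) = 0 := by
  induction n with
  | zero => simp [del_apply, DL_one]
  | succ n ih =>
    rw [pow_succ, del_mul, ih]
    simp [del_apply, hL0]

theorem del_X_pow_mul (c : ℂ) (n : ℕ) (f : Finf) :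
    del L c (X 0 ^ n * f) = X 0 ^ n * del L c f := by
  rw [del_mul, del_X_pow L hL0, zero_mul, add_zero]

theorem dvd_del_pow (c : ℂ) (k : ℕ) (f : Finf) :
    (X 0 : Finf) ^ k ∣ ((del L c) ^ k) f := by
  induction k with
  | zero => simp
  | succ k ih =>
    obtain ⟨g, hg⟩ := ih
    rw [pow_succ' (del L c), Module.End.mul_apply, hg, del_X_pow_mul L hL0, del_apply]
    refine ⟨C c * X 0 * DL L g, ?_⟩
    ring

end

section
variable (L : (ℕ → ℂ) →ₗ[ℂ] ℂ)

/-- truncated exponential -/
noncomputable def PP (c : ℂ) (N : ℕ) (f : Finf) : Finf :=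
  ∑ k ∈ range N, ((k.factorial : ℚ)⁻¹) • ((del L c) ^ k) f

/-- the exponential of `c X_0^2 D` -/
noncomputable def theta (c : ℂ) (f : Finf) : Finf :=
  fun s => coeff s (PP L c (s 0 + 1) f)

variable (hL0 : DL L (X 0) = 0)
include hL0

theorem theta_mod (c : ℂ) (N : ℕ) (f : Finf) :
    (X 0 : Finf) ^ N ∣ theta L c f - PP L c N f := by
  rw [X_pow_dvd_iff]
  intro s hs
  rw [map_sub, sub_eq_zero]
  change coeff s (PP L c (s 0 + 1) f) = _
  unfold PP
  rw [map_sum, map_sum]
  apply Finset.sum_subset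
  · intro k hk
    simp only [mem_range] at *
    omega
  · intro k hk hk'
    simp only [mem_range, not_lt] at *
    have h1 : (X 0 : Finf) ^ (s 0 + 1) ∣ ((del L c) ^ k) f :=
      dvd_trans (pow_dvd_pow _ hk') (dvd_del_pow L hL0 c k f)
    have h2 := X_pow_dvd_iff.1 h1 s (by omega)
    have h3 : (((k.factorial : ℚ)⁻¹) • ((del L c) ^ k) f : Finf) =
      (((k.factorial : ℚ)⁻¹ : ℚ) : ℂ) • ((del L c) ^ k) f := by
      rw [Rat.cast_smul_eq_qsmul]
    rw [h3, map_smul, h2, smul_zero]

omit hL0 in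
theorem eq_of_forall_dvd {f g : Finf} (h : ∀ N : ℕ, (X 0 : Finf) ^ N ∣ f - g) : f = g := by
  ext s
  have := X_pow_dvd_iff.1 (h (s 0 + 1)) s (by omega)
  rw [map_sub, sub_eq_zero] at this
  exact this

/-- the ideal `(X_0^N)` -/
noncomputable def I (N : ℕ) : Ideal Finf := Ideal.span {(X 0 : Finf) ^ N}

/-- the induced map on the quotient by `(X_0^N)` -/
noncomputable def delQ (c : ℂ) (N : ℕ) : Module.End ℂ (Finf ⧸ I N) :=
  Submodule.mapQ ((I N).restrictScalars ℂ) ((I N).restrictScalars ℂ) (del L c) (by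
    intro f hf
    simp only [Submodule.restrictScalars_mem, I, Ideal.mem_span_singleton,
      Submodule.mem_comap] at *
    obtain ⟨g, rfl⟩ := hf
    rw [del_X_pow_mul L hL0]
    exact dvd_mul_right _ _)

theorem delQ_mk (c : ℂ) (N : ℕ) (f : Finf) :
    delQ L hL0 c N (Ideal.Quotient.mk (I N) f) = Ideal.Quotient.mk (I N) (del L c f) := rfl

theorem delQ_pow_mk (c : ℂ) (N k : ℕ) (f : Finf) :
    (delQ L hL0 c N ^ k) (Ideal.Quotient.mk (I N) f) =
      Ideal.Quotient.mk (I N) (((del L c) ^ k) f) := by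
  induction k with
  | zero => simp
  | succ k ih =>
    rw [pow_succ' (delQ L hL0 c N), pow_succ' (del L c), Module.End.mul_apply,
      Module.End.mul_apply, ih, delQ_mk]

theorem delQ_pow_eq_zero (c : ℂ) (N : ℕ) : delQ L hL0 c N ^ N = 0 := by
  apply LinearMap.ext
  intro x
  obtain ⟨f, rfl⟩ := Ideal.Quotient.mk_surjective x
  rw [delQ_pow_mk, LinearMap.zero_apply, Ideal.Quotient.eq_zero_iff_mem, I,
    Ideal.mem_span_singleton]
  exact dvd_del_pow L hL0 c N f

theorem delQ_nilpotent (c : ℂ) (N : ℕ) : IsNilpotent (delQ L hL0 c N) :=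
  ⟨N, delQ_pow_eq_zero L hL0 c N⟩

theorem delQ_deriv (c : ℂ) (N : ℕ) (x y : Finf ⧸ I N) :
    delQ L hL0 c N (x * y) = x * delQ L hL0 c N y + delQ L hL0 c N x * y := by
  obtain ⟨f, rfl⟩ := Ideal.Quotient.mk_surjective x
  obtain ⟨g, rfl⟩ := Ideal.Quotient.mk_surjective y
  rw [← map_mul, delQ_mk, delQ_mk, delQ_mk, del_mul, map_add, map_mul, map_mul]

theorem mk_PP (c : ℂ) (N : ℕ) (f : Finf) :
    Ideal.Quotient.mk (I N) (PP L c N f) =
      IsNilpotent.exp (delQ L hL0 c N) (Ideal.Quotient.mk (I N) f) := by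
  rw [IsNilpotent.exp_eq_sum (delQ_pow_eq_zero L hL0 c N)]
  simp only [PP, map_sum, LinearMap.sum_apply, LinearMap.smul_apply, delQ_pow_mk]
  apply Finset.sum_congr rfl
  intro k _
  exact map_rat_smul (Ideal.Quotient.mk (I N)) _ _

theorem mk_theta (c : ℂ) (N : ℕ) (f : Finf) :
    Ideal.Quotient.mk (I N) (theta L c f) =
      IsNilpotent.exp (delQ L hL0 c N) (Ideal.Quotient.mk (I N) f) := by
  rw [← mk_PP, Ideal.Quotient.eq, I, Ideal.mem_span_singleton]
  exact theta_mod L hL0 c N f

omit hL0 in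
theorem eq_of_mk {f g : Finf}
    (h : ∀ N, Ideal.Quotient.mk (I N) f = Ideal.Quotient.mk (I N) g) : f = g := by
  apply eq_of_forall_dvd
  intro N
  have := h N
  rwa [Ideal.Quotient.eq, I, Ideal.mem_span_singleton] at this

theorem theta_mul (c : ℂ) (f g : Finf) : theta L c (f * g) = theta L c f * theta L c g := by
  apply eq_of_mk
  intro N
  rw [map_mul (Ideal.Quotient.mk (I N)) (theta L c f), mk_theta L hL0, mk_theta L hL0,
    mk_theta L hL0, map_mul]
  exact Module.End.exp_mul_of_derivation ℂ (Finf ⧸ I N) (delQ L hL0 c N)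
    (delQ_deriv L hL0 c N) (delQ_nilpotent L hL0 c N) _ _

theorem theta_add (c : ℂ) (f g : Finf) : theta L c (f + g) = theta L c f + theta L c g := by
  apply eq_of_mk
  intro N
  rw [map_add (Ideal.Quotient.mk (I N)) (theta L c f), mk_theta L hL0, mk_theta L hL0,
    mk_theta L hL0, map_add, map_add]

theorem theta_zero (c : ℂ) : theta L c 0 = 0 := by
  have := theta_add L hL0 c 0 0
  simpa using this

theorem theta_theta_neg (c : ℂ) (f : Finf) : theta L (-c) (theta L c f) = f := by
  apply eq_of_mk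
  intro N
  rw [mk_theta L hL0, mk_theta L hL0]
  have h1 : delQ L hL0 (-c) N = - delQ L hL0 c N := by
    apply LinearMap.ext
    intro x
    obtain ⟨f, rfl⟩ := Ideal.Quotient.mk_surjective x
    rw [LinearMap.neg_apply, delQ_mk, delQ_mk, ← map_neg]
    congr 1
    rw [del_apply, del_apply, map_neg]
    ring
  rw [h1, ← Module.End.mul_apply, IsNilpotent.exp_neg_mul_exp_self (delQ_nilpotent L hL0 c N)]
  rfl

theorem theta_C (c a : ℂ) : theta L c (C a) = C a := by
  apply eq_of_mk
  intro N
  rw [mk_theta L hL0]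
  rcases Nat.eq_zero_or_pos N with h | h
  · subst h
    have : ∀ x y : Finf ⧸ I 0, x = y := by
      intro x y
      obtain ⟨f, rfl⟩ := Ideal.Quotient.mk_surjective x
      obtain ⟨g, rfl⟩ := Ideal.Quotient.mk_surjective y
      rw [Ideal.Quotient.eq, I, Ideal.mem_span_singleton]
      simp
    exact this _ _
  · rw [IsNilpotent.exp_eq_sum (delQ_pow_eq_zero L hL0 c N)]
    rw [LinearMap.sum_apply, Finset.sum_eq_single 0]
    · simp
    · intro k _ hk
      obtain ⟨k, rfl⟩ := Nat.exists_eq_succ_of_ne_zero hk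
      rw [LinearMap.smul_apply, delQ_pow_mk, pow_succ, Module.End.mul_apply]
      simp [del_apply, DL_C]
    · intro h0
      simp only [mem_range, not_lt] at h0
      omega

/-- `theta` as an algebra automorphism of the full algebra of power series. -/
noncomputable def thetaEquiv (c : ℂ) : Finf ≃ₐ[ℂ] Finf :=
  { toFun := theta L c
    invFun := theta L (-c)
    left_inv := theta_theta_neg L hL0 c
    right_inv := by
      intro f
      have := theta_theta_neg L hL0 (-c) f
      rwa [neg_neg] at this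
    map_mul' := theta_mul L hL0 c
    map_add' := theta_add L hL0 c
    commutes' := fun a => theta_C L hL0 c a }

theorem thetaEquiv_apply (c : ℂ) (f : Finf) : thetaEquiv L hL0 c f = theta L c f := rfl

theorem thetaEquiv_symm_apply (c : ℂ) (f : Finf) :
    (thetaEquiv L hL0 c).symm f = theta L (-c) f := rfl

/-- `theta f - f` is divisible by `X_0^2` -/
theorem dvd_theta_sub (c : ℂ) (f : Finf) : (X 0 : Finf) ^ 2 ∣ theta L c f - f := by
  have h1 := theta_mod L hL0 c 2 f
  have h2 : PP L c 2 f = f + del L c f := by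
    simp [PP, Finset.sum_range_succ]
  rw [h2] at h1
  have h3 : (X 0 : Finf) ^ 2 ∣ del L c f := by
    rw [del_apply]
    exact ⟨C c * DL L f, by ring⟩
  have h4 := dvd_add h1 h3
  have h5 : theta L c f - (f + del L c f) + del L c f = theta L c f - f := by ring
  rwa [h5] at h4

/-- if `D f` is a constant then `theta f = f + c X_0^2 D f` -/
theorem theta_of_const (c a : ℂ) (f : Finf) (hf : DL L f = C a) :
    theta L c f = f + C c * X 0 ^ 2 * C a := by
  apply eq_of_forall_dvd
  intro N
  have h1 := theta_mod L hL0 c (N + 2) f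
  have h2 : PP L c (N + 2) f = f + C c * X 0 ^ 2 * C a := by
    unfold PP
    rw [Finset.sum_range_succ', Finset.sum_range_succ', Finset.sum_eq_zero]
    · simp [del_apply, hf]
      ring
    · intro k _
      rw [pow_add, Module.End.mul_apply]
      have : ((del L c) ^ 2) f = 0 := by
        rw [pow_two, Module.End.mul_apply, del_apply L c f, hf]
        have h3 : (C c * X 0 ^ 2 * C a : Finf) = X 0 ^ 2 * (C c * C a) := by ring
        rw [h3, del_X_pow_mul L hL0, del_apply, DL_mul, DL_C, DL_C]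
        simp
      have h4 : ((del L c) ^ (k + 1 + 1)) f = 0 := by
        rw [add_assoc, pow_add]
        rw [Module.End.mul_apply]
        norm_num
        rw [this, map_zero]
      simp only [← Module.End.mul_apply, ← pow_add]
      rw [h4, smul_zero]
  rw [h2] at h1
  exact dvd_trans (pow_dvd_pow _ (by omega)) h1

end

end Pool.Agent.Lib.MP_39588e_an
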