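import Mathlib
import Pool.Agent.Lib.MP_39588e_an.Exp

open MvPowerSeries Finset Filter Topology

namespace Pool.Agent.Lib.MP_39588e_an

/-- the power series `∑ a_i X_i` -/
noncomputable def lin (a : ℕ → ℂ) : Finf :=
  fun r => ∑ i ∈ r.support, if r = Finsupp.single i 1 then a i else 0

theorem coeff_lin_single (a : ℕ → ℂ) (i : ℕ) :
    coeff (Finsupp.single i 1) (lin a) = a i := by
  change (∑ j ∈ (Finsupp.single i 1 : ℕ →₀ ℕ).support,
    if (Finsupp.single i 1 : ℕ →₀ ℕ) = Finsupp.single j 1 then a j else 0) = a i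
  rw [Finsupp.support_single _ one_ne_zero]
  simp

theorem coeff_lin_of_ne (a : ℕ → ℂ) (r : ℕ →₀ ℕ) (h : ∀ i, r ≠ Finsupp.single i 1) :
    coeff r (lin a) = 0 := by
  change (∑ j ∈ r.support, if r = Finsupp.single j 1 then a j else 0) = 0
  apply Finset.sum_eq_zero
  intro j _
  rw [if_neg (h j)]

theorem lin_sub (a b : ℕ → ℂ) : lin a - lin b = lin (a - b) := by
  ext r
  rw [map_sub]
  by_cases h : ∃ i, r = Finsupp.single i 1
  · obtain ⟨i, rfl⟩ := h
    simp [coeff_lin_single]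
  · push Not at h
    simp [coeff_lin_of_ne _ _ h]

theorem DL_lin (L : (ℕ → ℂ) →ₗ[ℂ] ℂ) (a : ℕ → ℂ) : DL L (lin a) = C (L a) := by
  ext s
  rw [coeff_DL]
  by_cases hs : s = 0
  · subst hs
    rw [coeff_zero_C]
    congr 1
    ext i
    rw [zero_add, coeff_lin_single]
    simp
  · rw [coeff_C, if_neg hs]
    have : (fun i => coeff (s + Finsupp.single i 1) (lin a) * ((s i : ℂ) + 1)) = 0 := by
      ext i
      rw [coeff_lin_of_ne, zero_mul]
      · rfl
      · intro j hj
        apply hs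
        have h1 : (s + Finsupp.single i 1).degree = 1 := by
          rw [hj]; simp
        rw [map_add] at h1
        simp only [Finsupp.degree_single] at h1
        have h2 : s.degree = 0 := by omega
        rwa [Finsupp.degree_eq_zero_iff] at h2
    rw [this, map_zero]

theorem lin_single (j : ℕ) : lin (Pi.single j 1) = X j := by
  ext r
  by_cases h : ∃ i, r = Finsupp.single i 1
  · obtain ⟨i, rfl⟩ := h
    rw [coeff_lin_single, coeff_X]
    by_cases hij : i = j
    · subst hij; simp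
    · rw [if_neg]
      · simp [hij]
      · intro h
        have := Finsupp.single_left_injective (one_ne_zero) h
        exact hij this
  · push Not at h
    rw [coeff_lin_of_ne _ _ h, coeff_X, if_neg (h j)]

theorem DL_X (L : (ℕ → ℂ) →ₗ[ℂ] ℂ) (j : ℕ) (hj : L (Pi.single j 1) = 0) : DL L (X j) = 0 := by
  rw [← lin_single, DL_lin, hj, map_zero]

/-- the subalgebra of power series whose degree one coefficients are bounded -/
noncomputable def A : Subalgebra ℂ Finf where
  carrier := {f | ∃ B : ℝ, ∀ i, ‖coeff (Finsupp.single i 1) f‖ ≤ B}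
  mul_mem' := by
    rintro f g ⟨B, hB⟩ ⟨B', hB'⟩
    refine ⟨‖coeff 0 f‖ * B' + ‖coeff 0 g‖ * B, ?_⟩
    intro i
    have h1 : coeff (Finsupp.single i 1) (f * g) =
        coeff 0 f * coeff (Finsupp.single i 1) g + coeff (Finsupp.single i 1) f * coeff 0 g := by
      classical
      rw [coeff_mul, Finsupp.antidiagonal_single]
      simp [Finset.Nat.antidiagonal_succ]
    rw [h1]
    calc _ ≤ ‖coeff 0 f * coeff (Finsupp.single i 1) g‖
          + ‖coeff (Finsupp.single i 1) f * coeff 0 g‖ := norm_add_le _ _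
      _ = ‖coeff 0 f‖ * ‖coeff (Finsupp.single i 1) g‖
          + ‖coeff 0 g‖ * ‖coeff (Finsupp.single i 1) f‖ := by
            rw [norm_mul, norm_mul]; ring
      _ ≤ _ := by gcongr <;> first | exact hB' i | exact hB i
  add_mem' := by
    rintro f g ⟨B, hB⟩ ⟨B', hB'⟩
    refine ⟨B + B', fun i => ?_⟩
    rw [map_add]
    exact (norm_add_le _ _).trans (add_le_add (hB i) (hB' i))
  algebraMap_mem' := by
    intro a
    refine ⟨‖a‖, fun i => ?_⟩
    rw [MvPowerSeries.algebraMap_apply, coeff_C]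
    split_ifs
    · simp
    · simp

theorem mem_A {f : Finf} : f ∈ A ↔ ∃ B : ℝ, ∀ i, ‖coeff (Finsupp.single i 1) f‖ ≤ B := Iff.rfl

theorem lin_mem_A {a : ℕ → ℂ} {B : ℝ} (h : ∀ i, ‖a i‖ ≤ B) : lin a ∈ A := by
  refine ⟨B, fun i => ?_⟩
  rw [coeff_lin_single]
  exact h i

theorem X_mem_A (i : ℕ) : (X i : Finf) ∈ A := by
  rw [← lin_single]
  apply lin_mem_A (B := 1)
  intro j
  by_cases h : j = i
  · subst h; simp
  · simp [h]

theorem A_ne_top : A ≠ ⊤ := by
  intro h
  have : lin (fun i => (i : ℂ)) ∈ A := by rw [h]; exact Algebra.mem_top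
  obtain ⟨B, hB⟩ := this
  obtain ⟨n, hn⟩ := exists_nat_gt B
  have := hB n
  rw [coeff_lin_single] at this
  simp at this
  linarith

/-- an element congruent to an element of `A` modulo `X_0^2` is in `A` -/
theorem mem_A_of_dvd {f g : Finf} (hf : f ∈ A) (h : (X 0 : Finf) ^ 2 ∣ g - f) : g ∈ A := by
  obtain ⟨B, hB⟩ := hf
  refine ⟨B, fun i => ?_⟩
  have h1 : coeff (Finsupp.single i 1) (g - f) = 0 := by
    apply X_pow_dvd_iff.1 h
    rw [Finsupp.single_apply]
    split_ifs <;> omega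
  rw [map_sub, sub_eq_zero] at h1
  rw [h1]
  exact hB i

/-- the linear part as a bounded sequence -/
noncomputable def linPart : A →ₗ[ℂ] lp (fun _ : ℕ => ℂ) ⊤ where
  toFun f := ⟨fun i => coeff (Finsupp.single i 1) (f : Finf), by
    obtain ⟨B, hB⟩ := f.2
    apply memℓp_infty
    exact ⟨B, by rintro _ ⟨i, rfl⟩; exact hB i⟩⟩
  map_add' f g := by ext i; simp
  map_smul' c f := by ext i; simp

theorem linPart_apply (f : A) (i : ℕ) :
    (linPart f : ∀ _ : ℕ, ℂ) i = coeff (Finsupp.single i 1) (f : Finf) := rfl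

/-- the exponent `(m, ..., m, 0, ...)` -/
noncomputable def R (m : ℕ) : ℕ →₀ ℕ := ∑ i ∈ range m, Finsupp.single i m

theorem R_apply (m i : ℕ) : R m i = if i < m then m else 0 := by
  rw [R, Finsupp.finsetSum_apply]
  simp [Finsupp.single_apply]

theorem R_mono : Monotone R := by
  intro m n h i
  rw [R_apply, R_apply]
  split_ifs <;> omega

theorem exists_le_R (r : ℕ →₀ ℕ) : ∃ m, r ≤ R m := by
  refine ⟨r.support.sup id + r.support.sup r + 1, fun i => ?_⟩
  rw [R_apply]
  by_cases hi : i ∈ r.support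
  · have h1 : i ≤ r.support.sup id := Finset.le_sup (f := id) hi
    have h2 : r i ≤ r.support.sup r := Finset.le_sup (f := r) hi
    rw [if_pos (by omega)]
    omega
  · rw [Finsupp.notMem_support_iff] at hi
    rw [hi]
    exact Nat.zero_le _

/-- the seminorms of the algebra `A` -/
noncomputable def q (m : ℕ) : Seminorm ℂ A :=
  Seminorm.of (fun f => ∑ r ∈ Iic (R m), ‖coeff r (f : Finf)‖ + ‖linPart f‖)
    (by
      intro f g
      have h1 : ∑ r ∈ Iic (R m), ‖coeff r ((f + g : A) : Finf)‖ ≤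
          ∑ r ∈ Iic (R m), ‖coeff r (f : Finf)‖ + ∑ r ∈ Iic (R m), ‖coeff r (g : Finf)‖ := by
        rw [← Finset.sum_add_distrib]
        apply Finset.sum_le_sum
        intro r _
        push_cast
        rw [map_add]
        exact norm_add_le _ _
      have h2 : ‖linPart (f + g)‖ ≤ ‖linPart f‖ + ‖linPart g‖ := by
        rw [map_add]; exact norm_add_le _ _
      linarith)
    (by
      intro c f
      rw [map_smul, norm_smul, mul_add, Finset.mul_sum]
      congr 1
      apply Finset.sum_congr rfl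
      intro r _
      rw [← norm_smul]
      rfl)

theorem q_apply (m : ℕ) (f : A) :
    q m f = ∑ r ∈ Iic (R m), ‖coeff r (f : Finf)‖ + ‖linPart f‖ := rfl

theorem norm_coeff_le_q {m : ℕ} {r : ℕ →₀ ℕ} (hr : r ≤ R m) (f : A) :
    ‖coeff r (f : Finf)‖ ≤ q m f := by
  rw [q_apply]
  have h1 : ‖coeff r (f : Finf)‖ ≤ ∑ r ∈ Iic (R m), ‖coeff r (f : Finf)‖ :=
    Finset.single_le_sum (f := fun r => ‖coeff r (f : Finf)‖) (fun _ _ => norm_nonneg _)
      (Finset.mem_Iic.2 hr)
  have h2 := norm_nonneg (linPart f)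
  linarith

theorem q_mono : Monotone q := by
  intro m n h f
  rw [q_apply, q_apply]
  have : ∑ r ∈ Iic (R m), ‖coeff r (f : Finf)‖ ≤ ∑ r ∈ Iic (R n), ‖coeff r (f : Finf)‖ :=
    Finset.sum_le_sum_of_subset_of_nonneg (Finset.Iic_subset_Iic.2 (R_mono h))
      (fun _ _ _ => norm_nonneg _)
  linarith

theorem sum_mul_le (S : ℕ →₀ ℕ) (f g : Finf) :
    ∑ r ∈ Iic S, ‖coeff r (f * g)‖ ≤
      (∑ r ∈ Iic S, ‖coeff r f‖) * ∑ r ∈ Iic S, ‖coeff r g‖ := by
  classical
  have h1 : ∀ r ∈ Iic S, ‖coeff r (f * g)‖ ≤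
      ∑ p ∈ (Iic S ×ˢ Iic S) with p.1 + p.2 = r, ‖coeff p.1 f‖ * ‖coeff p.2 g‖ := by
    intro r hr
    rw [coeff_mul]
    refine (norm_sum_le _ _).trans ?_
    simp only [norm_mul]
    apply Finset.sum_le_sum_of_subset_of_nonneg
    · intro p hp
      rw [HasAntidiagonal.mem_antidiagonal] at hp
      rw [Finset.mem_filter, Finset.mem_product, mem_Iic, mem_Iic]
      rw [mem_Iic] at hr
      refine ⟨⟨?_, ?_⟩, hp⟩
      · exact le_trans (le_add_of_nonneg_right (zero_le)) (hp.le.trans hr)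
      · exact le_trans (le_add_of_nonneg_left (zero_le)) (hp.le.trans hr)
    · intro _ _ _
      positivity
  refine (Finset.sum_le_sum h1).trans ?_
  rw [Finset.sum_mul_sum, ← Finset.sum_product']
  calc ∑ r ∈ Iic S, ∑ p ∈ (Iic S ×ˢ Iic S) with p.1 + p.2 = r, ‖coeff p.1 f‖ * ‖coeff p.2 g‖
      = ∑ r ∈ Iic S, ∑ p ∈ ((Iic S ×ˢ Iic S).filter (fun p => p.1 + p.2 ∈ Iic S)) with
          p.1 + p.2 = r, ‖coeff p.1 f‖ * ‖coeff p.2 g‖ := by
        apply Finset.sum_congr rfl
        intro r hr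
        apply Finset.sum_congr _ (fun _ _ => rfl)
        ext p
        simp only [Finset.mem_filter]
        constructor
        · rintro ⟨h2, h3⟩
          exact ⟨⟨h2, h3 ▸ hr⟩, h3⟩
        · rintro ⟨⟨h2, _⟩, h3⟩
          exact ⟨h2, h3⟩
    _ = ∑ p ∈ (Iic S ×ˢ Iic S).filter (fun p => p.1 + p.2 ∈ Iic S),
          ‖coeff p.1 f‖ * ‖coeff p.2 g‖ :=
        Finset.sum_fiberwise_of_maps_to (fun p hp => (Finset.mem_filter.1 hp).2) _
    _ ≤ _ := by
        apply Finset.sum_le_sum_of_subset_of_nonneg (Finset.filter_subset _ _)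
        intro _ _ _
        positivity

theorem coeff_single_mul (f g : Finf) (i : ℕ) : coeff (Finsupp.single i 1) (f * g) =
    coeff 0 f * coeff (Finsupp.single i 1) g + coeff 0 g * coeff (Finsupp.single i 1) f := by
  classical
  rw [coeff_mul, Finsupp.antidiagonal_single]
  simp [Finset.Nat.antidiagonal_succ]
  ring

theorem q_mul (m : ℕ) (f g : A) : q m (f * g) ≤ q m f * q m g := by
  rw [q_apply, q_apply, q_apply]
  set a := ∑ r ∈ Iic (R m), ‖coeff r (f : Finf)‖ with ha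
  set b := ∑ r ∈ Iic (R m), ‖coeff r (g : Finf)‖ with hb
  have h1 : ∑ r ∈ Iic (R m), ‖coeff r ((f * g : A) : Finf)‖ ≤ a * b := sum_mul_le _ _ _
  have h0 : ‖coeff 0 (f : Finf)‖ ≤ a :=
    Finset.single_le_sum (f := fun r => ‖coeff r (f : Finf)‖) (fun _ _ => norm_nonneg _)
      (Finset.mem_Iic.2 (zero_le))
  have h0' : ‖coeff 0 (g : Finf)‖ ≤ b :=
    Finset.single_le_sum (f := fun r => ‖coeff r (g : Finf)‖) (fun _ _ => norm_nonneg _)
      (Finset.mem_Iic.2 (zero_le))
  have h2 : linPart (f * g) = coeff 0 (f : Finf) • linPart g + coeff 0 (g : Finf) • linPart f := by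
    ext i
    change coeff (Finsupp.single i 1) ((f : Finf) * (g : Finf)) = _
    rw [coeff_single_mul]
    rfl
  have h3 : ‖linPart (f * g)‖ ≤ a * ‖linPart g‖ + b * ‖linPart f‖ := by
    rw [h2]
    refine (norm_add_le _ _).trans ?_
    rw [norm_smul, norm_smul]
    gcongr
  have h4 := norm_nonneg (linPart f)
  have h5 := norm_nonneg (linPart g)
  nlinarith [mul_nonneg h4 h5]

theorem q_hausdorff (f : A) (h : ∀ m, q m f = 0) : f = 0 := by
  apply Subtype.ext
  ext r
  obtain ⟨m, hm⟩ := exists_le_R r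
  have := norm_coeff_le_q hm f
  rw [h m] at this
  simpa using this

theorem norm_linPart_le_q (m : ℕ) (f : A) : ‖linPart f‖ ≤ q m f := by
  rw [q_apply]
  have : 0 ≤ ∑ r ∈ Iic (R m), ‖coeff r (f : Finf)‖ :=
    Finset.sum_nonneg (fun _ _ => norm_nonneg _)
  linarith

theorem q_complete (u : ℕ → A)
    (hu : ∀ m : ℕ, ∀ ε : ℝ, 0 < ε → ∃ N : ℕ, ∀ i ≥ N, ∀ j ≥ N, q m (u i - u j) < ε) :
    ∃ f : A, ∀ m : ℕ, ∀ ε : ℝ, 0 < ε → ∃ N : ℕ, ∀ i ≥ N, q m (u i - f) < ε := by
  -- coefficientwise limits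
  have hc : ∀ r : ℕ →₀ ℕ, CauchySeq (fun k => coeff r (u k : Finf)) := by
    intro r
    obtain ⟨m, hm⟩ := exists_le_R r
    rw [Metric.cauchySeq_iff]
    intro ε hε
    obtain ⟨N, hN⟩ := hu m ε hε
    refine ⟨N, fun i hi j hj => ?_⟩
    rw [dist_eq_norm]
    have := norm_coeff_le_q hm (u i - u j)
    push_cast at this
    rw [map_sub] at this
    exact lt_of_le_of_lt this (hN i hi j hj)
  choose a ha using fun r => cauchySeq_tendsto_of_complete (hc r)
  have hl : CauchySeq (fun k => linPart (u k)) := by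
    rw [Metric.cauchySeq_iff]
    intro ε hε
    obtain ⟨N, hN⟩ := hu 0 ε hε
    refine ⟨N, fun i hi j hj => ?_⟩
    rw [dist_eq_norm, ← map_sub]
    exact lt_of_le_of_lt (norm_linPart_le_q 0 _) (hN i hi j hj)
  obtain ⟨l, hl⟩ := cauchySeq_tendsto_of_complete hl
  have hal : ∀ i, a (Finsupp.single i 1) = (l : ∀ _ : ℕ, ℂ) i := by
    intro i
    have h1 := ha (Finsupp.single i 1)
    have h2 : Tendsto (fun k => coeff (Finsupp.single i 1) (u k : Finf)) atTop
        (𝓝 ((l : ∀ _ : ℕ, ℂ) i)) := by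
      rw [tendsto_iff_norm_sub_tendsto_zero] at hl ⊢
      refine squeeze_zero (fun _ => norm_nonneg _) (fun k => ?_) hl
      exact lp.norm_apply_le_norm (by simp) (linPart (u k) - l) i
    exact tendsto_nhds_unique h1 h2
  have hfA : (fun r => a r : Finf) ∈ A := by
    refine ⟨‖l‖, fun i => ?_⟩
    change ‖a (Finsupp.single i 1)‖ ≤ ‖l‖
    rw [hal]
    exact lp.norm_apply_le_norm (by simp) l i
  refine ⟨⟨_, hfA⟩, fun m => ?_⟩
  have hlf : linPart ⟨_, hfA⟩ = l := by
    ext i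
    exact hal i
  have key : Tendsto (fun k => q m (u k - ⟨_, hfA⟩)) atTop (𝓝 0) := by
    have h1 : Tendsto (fun k => ∑ r ∈ Iic (R m), ‖coeff r (u k : Finf) - a r‖ +
        ‖linPart (u k) - l‖) atTop (𝓝 (∑ r ∈ Iic (R m), 0 + 0)) := by
      apply Tendsto.add
      · apply tendsto_finsetSum
        intro r _
        exact tendsto_iff_norm_sub_tendsto_zero.1 (ha r)
      · exact tendsto_iff_norm_sub_tendsto_zero.1 hl
    rw [Finset.sum_const_zero, add_zero] at h1
    refine h1.congr (fun k => ?_)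
    rw [q_apply, map_sub, hlf]
    rfl
  intro ε hε
  have := (Metric.tendsto_atTop.1 key) ε hε
  obtain ⟨N, hN⟩ := this
  refine ⟨N, fun i hi => ?_⟩
  have h2 := hN i hi
  rw [Real.dist_eq, sub_zero] at h2
  exact lt_of_le_of_lt (le_abs_self _) h2

end Pool.Agent.Lib.MP_39588e_an
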