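import Mathlib
import Pool.Agent.Lib.MP_39588e_an.Alg

open MvPowerSeries Finset Filter Topology

namespace Pool.Agent.Lib.MP_39588e_an

/-- the topology given by an increasing sequence of seminorms -/
@[instance_reducible]
def topOf {B : Type} [CommRing B] [Algebra ℂ B] (p : ℕ → Seminorm ℂ B) (hp : Monotone p) :
    TopologicalSpace B where
  IsOpen s := ∀ f ∈ s, ∃ m : ℕ, ∃ ε : ℝ, 0 < ε ∧ ∀ g : B, p m (g - f) < ε → g ∈ s
  isOpen_univ := fun _ _ => ⟨0, 1, one_pos, fun _ _ => Set.mem_univ _⟩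
  isOpen_inter := by
    rintro s t hs ht f ⟨hfs, hft⟩
    obtain ⟨m, ε, hε, h⟩ := hs f hfs
    obtain ⟨m', ε', hε', h'⟩ := ht f hft
    refine ⟨max m m', min ε ε', lt_min hε hε', fun g hg => ⟨?_, ?_⟩⟩
    · apply h
      have := hp (le_max_left m m') (g - f)
      exact lt_of_le_of_lt this (lt_of_lt_of_le hg (min_le_left _ _))
    · apply h'
      have := hp (le_max_right m m') (g - f)
      exact lt_of_le_of_lt this (lt_of_lt_of_le hg (min_le_right _ _))
  isOpen_sUnion := by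
    rintro S hS f ⟨s, hs, hfs⟩
    obtain ⟨m, ε, hε, h⟩ := hS s hs f hfs
    exact ⟨m, ε, hε, fun g hg => ⟨s, hs, h g hg⟩⟩

theorem isOpen_topOf {B : Type} [CommRing B] [Algebra ℂ B] (p : ℕ → Seminorm ℂ B)
    (hp : Monotone p) (s : Set B) : (topOf p hp).IsOpen s ↔
      ∀ f ∈ s, ∃ m : ℕ, ∃ ε : ℝ, 0 < ε ∧ ∀ g : B, p m (g - f) < ε → g ∈ s := Iff.rfl

theorem q_system : IsFrechetSystem q (topOf q q_mono) where
  increasing := q_mono
  submultiplicative := q_mul
  isOpen_iff := fun _ => Iff.rfl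
  hausdorff := q_hausdorff
  complete := q_complete

theorem exists_L : ∃ L : (ℕ → ℂ) →ₗ[ℂ] ℂ, (∀ j, L (Pi.single j 1) = 0) ∧
    L (fun i => (1 / 2 : ℂ) ^ i) = 1 := by
  have h : (fun i => (1 / 2 : ℂ) ^ i) ∉
      Submodule.span ℂ (Set.range (fun j : ℕ => (Pi.single j 1 : ℕ → ℂ))) := by
    intro h
    have h1 : ∀ x ∈ Submodule.span ℂ (Set.range (fun j : ℕ => (Pi.single j 1 : ℕ → ℂ))),
        ∃ N : ℕ, ∀ i ≥ N, x i = 0 := by
      intro x hx
      induction hx using Submodule.span_induction with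
      | mem x hx =>
        obtain ⟨j, rfl⟩ := hx
        refine ⟨j + 1, fun i hi => ?_⟩
        simp only
        rw [Pi.single_apply, if_neg (by omega)]
      | zero => exact ⟨0, fun _ _ => rfl⟩
      | add x y _ _ hx hy =>
        obtain ⟨N, hN⟩ := hx
        obtain ⟨M, hM⟩ := hy
        refine ⟨max N M, fun i hi => ?_⟩
        rw [Pi.add_apply, hN i (le_trans (le_max_left _ _) hi),
          hM i (le_trans (le_max_right _ _) hi), add_zero]
      | smul c x _ hx =>
        obtain ⟨N, hN⟩ := hx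
        exact ⟨N, fun i hi => by rw [Pi.smul_apply, hN i hi, smul_zero]⟩
    obtain ⟨N, hN⟩ := h1 _ h
    have := hN N le_rfl
    simp at this
  obtain ⟨L, hL1, hL2⟩ := Submodule.exists_le_ker_of_notMem h
  refine ⟨(L (fun i => (1 / 2 : ℂ) ^ i))⁻¹ • L, fun j => ?_, ?_⟩
  · have : L (Pi.single j 1) = 0 := hL2 (Submodule.subset_span ⟨j, rfl⟩)
    rw [LinearMap.smul_apply, this, smul_zero]
  · rw [LinearMap.smul_apply, smul_eq_mul, inv_mul_cancel₀ hL1]

section
variable (L : (ℕ → ℂ) →ₗ[ℂ] ℂ) (hL0 : DL L (X 0) = 0)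

/-- the automorphism of `A` induced by `theta` -/
noncomputable def thetaA : A ≃ₐ[ℂ] A :=
  { toFun := fun f => ⟨theta L 1 f, mem_A_of_dvd f.2 (dvd_theta_sub L hL0 1 f)⟩
    invFun := fun f => ⟨theta L (-1) f, mem_A_of_dvd f.2 (dvd_theta_sub L hL0 (-1) f)⟩
    left_inv := fun f => Subtype.ext (theta_theta_neg L hL0 1 f)
    right_inv := by
      intro f
      apply Subtype.ext
      have := theta_theta_neg L hL0 (-1) f
      rwa [neg_neg] at this
    map_mul' := fun f g => Subtype.ext (theta_mul L hL0 1 f g)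
    map_add' := fun f g => Subtype.ext (theta_add L hL0 1 f g)
    commutes' := fun a => Subtype.ext (theta_C L hL0 1 a) }

theorem coe_thetaA (f : A) : ((thetaA L hL0 f : A) : Finf) = theta L 1 f := rfl

/-- the seminorms of the second topology -/
noncomputable def q' (m : ℕ) : Seminorm ℂ A := (q m).comp (thetaA L hL0).toLinearMap

theorem q'_apply (m : ℕ) (f : A) : q' L hL0 m f = q m (thetaA L hL0 f) := rfl

theorem q'_mono : Monotone (q' L hL0) := by
  intro m n h f
  exact q_mono h (thetaA L hL0 f)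

theorem q'_system : IsFrechetSystem (q' L hL0) (topOf (q' L hL0) (q'_mono L hL0)) where
  increasing := q'_mono L hL0
  submultiplicative := by
    intro m f g
    rw [q'_apply, map_mul]
    exact q_mul _ _ _
  isOpen_iff := fun _ => Iff.rfl
  hausdorff := by
    intro f hf
    have := q_hausdorff (thetaA L hL0 f) hf
    simpa using this
  complete := by
    intro u hu
    obtain ⟨f, hf⟩ := q_complete (fun i => thetaA L hL0 (u i)) (by
      intro m ε hε
      obtain ⟨N, hN⟩ := hu m ε hε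
      refine ⟨N, fun i hi j hj => ?_⟩
      have := hN i hi j hj
      rwa [q'_apply, map_sub] at this)
    refine ⟨(thetaA L hL0).symm f, fun m ε hε => ?_⟩
    obtain ⟨N, hN⟩ := hf m ε hε
    refine ⟨N, fun i hi => ?_⟩
    rw [q'_apply, map_sub, AlgEquiv.apply_symm_apply]
    exact hN i hi

end

/-- truncations of the sequence `2^{-i}` -/
noncomputable def tr (n : ℕ) : ℕ → ℂ := fun i => if i < n then (1 / 2 : ℂ) ^ i else 0

theorem tr_eq_sum (n : ℕ) : tr n = ∑ i ∈ range n, ((1 / 2 : ℂ) ^ i) • (Pi.single i 1 : ℕ → ℂ) := by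
  ext j
  rw [Finset.sum_apply]
  simp [tr, Pi.single_apply]

theorem norm_tr_le (n i : ℕ) : ‖tr n i‖ ≤ 1 := by
  unfold tr
  split_ifs
  · rw [norm_pow]
    apply pow_le_one₀ (norm_nonneg _)
    norm_num
  · simp

theorem norm_half_le (i : ℕ) : ‖(fun i => (1 / 2 : ℂ) ^ i : ℕ → ℂ) i‖ ≤ 1 := by
  simp only [norm_pow]
  apply pow_le_one₀ (norm_nonneg _)
  norm_num

/-- the element `∑ 2^{-i} X_i` of `A` -/
noncomputable def z : A := ⟨lin (fun i => (1 / 2 : ℂ) ^ i), lin_mem_A norm_half_le⟩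

/-- its partial sums -/
noncomputable def zt (n : ℕ) : A := ⟨lin (tr n), lin_mem_A (norm_tr_le n)⟩

theorem norm_sub_tr_le (n i : ℕ) : ‖tr n i - (1 / 2 : ℂ) ^ i‖ ≤ (1 / 2 : ℝ) ^ n := by
  unfold tr
  split_ifs with h
  · simp
  · rw [zero_sub, norm_neg, norm_pow]
    have : ‖(1 / 2 : ℂ)‖ = 1 / 2 := by norm_num
    rw [this]
    exact pow_le_pow_of_le_one (by norm_num) (by norm_num) (by omega)

theorem norm_coeff_lin_le {a : ℕ → ℂ} {B : ℝ} (hB : 0 ≤ B) (h : ∀ i, ‖a i‖ ≤ B) (r : ℕ →₀ ℕ) :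
    ‖coeff r (lin a)‖ ≤ B := by
  by_cases hr : ∃ i, r = Finsupp.single i 1
  · obtain ⟨i, rfl⟩ := hr
    rw [coeff_lin_single]
    exact h i
  · push Not at hr
    rw [coeff_lin_of_ne _ _ hr, norm_zero]
    exact hB

theorem q_lin_le (m : ℕ) {a : ℕ → ℂ} {B : ℝ} (hB : 0 ≤ B) (h : ∀ i, ‖a i‖ ≤ B) :
    q m ⟨lin a, lin_mem_A h⟩ ≤ ((Iic (R m)).card + 1) * B := by
  rw [q_apply]
  have h1 : ∑ r ∈ Iic (R m), ‖coeff r (lin a)‖ ≤ (Iic (R m)).card * B := by
    refine (Finset.sum_le_card_nsmul _ _ B (fun r _ => norm_coeff_lin_le hB h r)).trans ?_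
    rw [nsmul_eq_mul]
  have h2 : ‖linPart ⟨lin a, lin_mem_A h⟩‖ ≤ B := by
    apply lp.norm_le_of_forall_le hB
    intro i
    rw [linPart_apply]
    exact norm_coeff_lin_le hB h _
  linarith

theorem zt_tendsto (m : ℕ) : Tendsto (fun n => q m (zt n - z)) atTop (𝓝 0) := by
  have h1 : ∀ n, q m (zt n - z) ≤ ((Iic (R m)).card + 1) * (1 / 2 : ℝ) ^ n := by
    intro n
    have h2 : zt n - z = ⟨lin (tr n - fun i => (1 / 2 : ℂ) ^ i),
        lin_mem_A (B := (1 / 2 : ℝ) ^ n) (fun i => norm_sub_tr_le n i)⟩ := by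
      apply Subtype.ext
      exact lin_sub _ _
    rw [h2]
    exact q_lin_le m (by positivity) (fun i => norm_sub_tr_le n i)
  refine squeeze_zero (fun n => apply_nonneg _ _) h1 ?_
  have h3 : Tendsto (fun n : ℕ => (1 / 2 : ℝ) ^ n) atTop (𝓝 0) :=
    tendsto_pow_atTop_nhds_zero_of_lt_one (by norm_num) (by norm_num)
  simpa using h3.const_mul (((Iic (R m)).card + 1 : ℝ))

theorem exists_second_topology : ∃ (A : Subalgebra ℂ Finf) (τ τ' : TopologicalSpace A),
    A ≠ ⊤ ∧ IsFrAPS A τ ∧ IsFrechetAlgebraTopology A τ' ∧ τ' ≠ τ := by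
  obtain ⟨L, hLs, hL1⟩ := exists_L
  have hL0 : DL L (X 0) = 0 := DL_X L 0 (hLs 0)
  refine ⟨A, topOf q q_mono, topOf (q' L hL0) (q'_mono L hL0), A_ne_top, ?_,
    ⟨_, q'_system L hL0⟩, ?_⟩
  · refine ⟨⟨_, q_system⟩, X_mem_A, ?_⟩
    intro r
    let _ := topOf q q_mono
    rw [continuous_def]
    intro U hU
    change (topOf q q_mono).IsOpen _
    rw [isOpen_topOf]
    intro f hf
    rw [Metric.isOpen_iff] at hU
    obtain ⟨ε, hε, hball⟩ := hU _ hf
    obtain ⟨m, hm⟩ := exists_le_R r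
    refine ⟨m, ε, hε, fun g hg => ?_⟩
    apply hball
    rw [Metric.mem_ball, dist_eq_norm, ← map_sub]
    exact lt_of_le_of_lt (norm_coeff_le_q hm (g - f)) hg
  · intro heq
    -- the element `X_0^2`
    have hx2 : (X 0 ^ 2 : Finf) ∈ A := by
      rw [pow_two]; exact A.mul_mem (X_mem_A 0) (X_mem_A 0)
    obtain ⟨m, hm⟩ : ∃ m, q m ⟨X 0 ^ 2, hx2⟩ ≠ 0 := by
      by_contra hcon
      push Not at hcon
      have := congrArg Subtype.val (q_hausdorff _ hcon)
      have h2 : (X 0 ^ 2 : Finf) = 0 := this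
      have h3 := congrArg (coeff (Finsupp.single 0 2)) h2
      rw [coeff_X_pow] at h3
      simp at h3
    have hpos : 0 < q m ⟨X 0 ^ 2, hx2⟩ := lt_of_le_of_ne (apply_nonneg _ _) (Ne.symm hm)
    set δ := q m ⟨X 0 ^ 2, hx2⟩ with hδ
    -- the neighbourhood
    let U : Set A := {g | q m (thetaA L hL0 g - thetaA L hL0 z) < δ / 2}
    have hU : (topOf (q' L hL0) (q'_mono L hL0)).IsOpen U := by
      rw [isOpen_topOf]
      intro f hf
      refine ⟨m, δ / 2 - q m (thetaA L hL0 f - thetaA L hL0 z), by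
        have : q m (thetaA L hL0 f - thetaA L hL0 z) < δ / 2 := hf
        linarith, fun g hg => ?_⟩
      rw [q'_apply, map_sub] at hg
      change q m (thetaA L hL0 g - thetaA L hL0 z) < δ / 2
      have h1 : thetaA L hL0 g - thetaA L hL0 z =
          (thetaA L hL0 g - thetaA L hL0 f) + (thetaA L hL0 f - thetaA L hL0 z) := by ring
      rw [h1]
      exact lt_of_le_of_lt (map_add_le_add _ _ _) (by linarith)
    rw [heq, isOpen_topOf] at hU
    obtain ⟨m', ε, hε, h⟩ := hU z (by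
      change q m (thetaA L hL0 z - thetaA L hL0 z) < δ / 2
      rw [sub_self, map_zero]; linarith)
    have h1 : ∀ᶠ n in atTop, q m' (zt n - z) < ε := (zt_tendsto m').eventually_lt_const hε
    have h2 : ∀ᶠ n in atTop, q m (zt n - z) < δ / 2 :=
      (zt_tendsto m).eventually_lt_const (by linarith)
    obtain ⟨n, hn1, hn2⟩ := (h1.and h2).exists
    have h3 : q m (thetaA L hL0 (zt n) - thetaA L hL0 z) < δ / 2 := h _ hn1
    have h4 : thetaA L hL0 (zt n) = zt n := by
      apply Subtype.ext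
      rw [coe_thetaA]
      have h5 : DL L (zt n : Finf) = C 0 := by
        change DL L (lin (tr n)) = C 0
        rw [DL_lin, tr_eq_sum, map_sum]
        simp [hLs]
      rw [theta_of_const L hL0 1 0 _ h5]
      simp
    have h5 : thetaA L hL0 z = z + ⟨X 0 ^ 2, hx2⟩ := by
      apply Subtype.ext
      rw [coe_thetaA]
      have h5 : DL L (z : Finf) = C 1 := by
        change DL L (lin _) = C 1
        rw [DL_lin, hL1]
      rw [theta_of_const L hL0 1 1 _ h5]
      simp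
    rw [h4, h5] at h3
    have h6 : (⟨X 0 ^ 2, hx2⟩ : A) = (zt n - z) - (zt n - (z + ⟨X 0 ^ 2, hx2⟩)) := by ring
    have h7 : δ ≤ q m (zt n - z) + q m (zt n - (z + ⟨X 0 ^ 2, hx2⟩)) := by
      rw [hδ]
      conv_lhs => rw [h6]
      exact map_sub_le_add _ _ _
    linarith

end Pool.Agent.Lib.MP_39588e_an
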